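import Mathlib

namespace Pool.Agent.Results.MP_085bfa_gt.Ext

open Set Topology TopologicalSpace Filter

/-- Covering dimension at most `n`: every finite open cover has a finite open refinement in which
each point lies in at most `n + 1` members. -/
def DimLE (X : Type) [TopologicalSpace X] (n : ℕ) : Prop :=
  ∀ 𝒰 : Set (Set X), 𝒰.Finite → (∀ U ∈ 𝒰, IsOpen U) → ⋃₀ 𝒰 = univ →
    ∃ 𝒱 : Set (Set X), 𝒱.Finite ∧ (∀ V ∈ 𝒱, IsOpen V) ∧ ⋃₀ 𝒱 = univ ∧
      (∀ V ∈ 𝒱, ∃ U ∈ 𝒰, V ⊆ U) ∧ ∀ x, {V ∈ 𝒱 | x ∈ V}.ncard ≤ n + 1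

/-- Separable metrizable with small inductive dimension zero. -/
def SM0 (X : Type) (t : TopologicalSpace X) : Prop :=
  @SeparableSpace X t ∧ @MetrizableSpace X t ∧ @smallInductiveDimension X t = 0

/-- The topology of `X` is the intersection of `m` topologies from `SM0` (which are then
extensions of it). -/
def SnLE (X : Type) [τ : TopologicalSpace X] (m : ℕ) : Prop :=
  ∃ t : Fin m → TopologicalSpace X, (∀ i, SM0 X (t i)) ∧
    ∀ U : Set X, IsOpen[τ] U ↔ ∀ i, IsOpen[t i] U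

variable {X : Type} [MetricSpace X] {n : ℕ}

def Bd (Φ : Finset C(X, ℝ)) : Prop := ∀ h ∈ Φ, ∀ x, 0 ≤ h x ∧ h x ≤ 1

lemma step (hd : DimLE X n) (Φ : Finset C(X, ℝ)) (ε : ℝ) : ∃ Ψ : Finset C(X, ℝ), Bd Φ → 0 < ε →
    Bd Ψ ∧ (∀ ψ ∈ Ψ, ∀ x y, 0 < ψ x → 0 < ψ y → ∀ h ∈ Φ, |h x - h y| ≤ ε) ∧
    (∀ x, ∃ ψ ∈ Ψ, ψ x = 1) ∧ ∀ x, ∃ j : Fin (n + 1), ∀ ψ ∈ Ψ,
      1 / 2 ≤ |(n + 1) * ψ x - (j + 1 / 2)| := by
  classical
  by_cases H : Bd Φ ∧ 0 < ε
  swap
  · exact ⟨∅, fun a b => absurd ⟨a, b⟩ H⟩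
  obtain ⟨hΦ, hε⟩ := H
  obtain ⟨𝒱, hf, ho, hc, hr, hn⟩ := hd (range fun a : Φ → Fin (⌊2 / ε⌋₊ + 1) =>
      {x | ∀ h : Φ, |h.1 x - a h * (ε / 2)| < ε / 2}) (finite_range _) (by
      rintro _ ⟨a, rfl⟩
      simp only [ofPred_forall]
      exact isOpen_iInter_of_finite fun h => isOpen_lt (by fun_prop) continuous_const) (by
      refine eq_univ_of_forall fun x => ⟨_, ⟨fun h => ⟨⌊h.1 x / (ε / 2)⌋₊, ?_⟩, rfl⟩, fun h => ?_⟩
      · refine Nat.lt_succ_of_le (Nat.floor_le_floor ?_)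
        rw [div_div_eq_mul_div]
        gcongr
        linarith [(hΦ _ h.2 x).2]
      · have a1 := Nat.floor_le (show 0 ≤ h.1 x / (ε / 2) from div_nonneg (hΦ _ h.2 x).1 (by linarith))
        have a2 := Nat.lt_floor_add_one (h.1 x / (ε / 2))
        rw [le_div_iff₀ (by linarith)] at a1
        rw [div_lt_iff₀ (by linarith)] at a2
        rw [abs_lt]; constructor <;> simp only <;> linarith)
  have co : ∀ V : Set X, ∃ g : C(X, ℝ), IsOpen V → ∀ x, 0 ≤ g x ∧ (0 < g x ↔ x ∈ V) := by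
    intro V
    rcases Vᶜ.eq_empty_or_nonempty with h | h
    · exact ⟨1, fun _ x => by simp [compl_empty_iff.1 h]⟩
    · exact ⟨⟨_, Metric.continuous_infDist_pt Vᶜ⟩, fun hV x => ⟨Metric.infDist_nonneg,
        ((hV.isClosed_compl.notMem_iff_infDist_pos h).symm.trans (by simp))⟩⟩
  choose g hg using co
  rcases isEmpty_or_nonempty X with hX | ⟨⟨x0⟩⟩
  · exact ⟨∅, fun _ _ => by simp [Bd]⟩
  have cov : ∀ x, ∃ V ∈ 𝒱, x ∈ V := fun x => by simpa using hc.ge (mem_univ x)
  have hne : hf.toFinset.Nonempty := by obtain ⟨V, h, -⟩ := cov x0; exact ⟨V, by simpa⟩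
  set s : C(X, ℝ) := hf.toFinset.sup' hne g with hs
  have s1 : ∀ V ∈ 𝒱, ∀ x, g V x ≤ s x := fun V hV x =>
    (Finset.le_sup' g (hf.mem_toFinset.2 hV) : g V ≤ s) x
  have s2 : ∀ x, 0 < s x := fun x => by
    obtain ⟨V, h1, h2⟩ := cov x
    exact ((hg V (ho V h1) x).2.2 h2).trans_le (s1 V h1 x)
  set φ : Set X → C(X, ℝ) := fun V => ⟨fun x => g V x / s x,
    (g V).continuous.div s.continuous fun x => (s2 x).ne'⟩ with hφ
  have p1 : ∀ V ∈ 𝒱, ∀ x, 0 < φ V x → x ∈ V := fun V hV x h =>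
    (hg V (ho V hV) x).2.1 ((div_pos_iff_of_pos_right (s2 x)).1 h)
  have p2 : ∀ x, ∃ V ∈ 𝒱, φ V x = 1 := fun x => by
    obtain ⟨V, h1, h2⟩ := hf.toFinset.exists_mem_eq_sup' hne fun V => g V x
    refine ⟨V, by simpa using h1, (div_eq_one_iff_eq (s2 x).ne').2 ?_⟩
    rw [← h2, hs, ContinuousMap.sup'_apply]
  refine ⟨hf.toFinset.image φ, fun _ _ => ⟨?_, ?_, fun x => ?_, fun x => ?_⟩⟩
  · simp only [Bd, Finset.mem_image, Finite.mem_toFinset]
    rintro _ ⟨V, hV, rfl⟩ x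
    exact ⟨div_nonneg (hg V (ho V hV) x).1 (s2 x).le, (div_le_one (s2 x)).2 (s1 V hV x)⟩
  · simp only [Finset.mem_image, Finite.mem_toFinset]
    rintro _ ⟨V, hV, rfl⟩ x y hx hy h hh
    obtain ⟨_, ⟨a, rfl⟩, hU⟩ := hr V hV
    have a1 := abs_lt.1 (hU (p1 V hV x hx) ⟨h, hh⟩)
    have a2 := abs_lt.1 (hU (p1 V hV y hy) ⟨h, hh⟩)
    simp only at a1 a2
    rw [abs_le]; constructor <;> linarith
  · obtain ⟨V, h1, h2⟩ := p2 x
    exact ⟨_, Finset.mem_image_of_mem φ (hf.mem_toFinset.2 h1), h2⟩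
  · by_contra hcon
    push Not at hcon
    have : (Finset.range (n + 2) : Set ℕ) ⊆
        (fun V => ⌊(n + 1) * φ V x⌋₊) '' {V ∈ 𝒱 | x ∈ V} := by
      intro j hj
      rcases (show j < n + 1 ∨ j = n + 1 by simp at hj; omega) with h | rfl
      · obtain ⟨ψ, h1, h2⟩ := hcon ⟨j, h⟩
        obtain ⟨V, hV, rfl⟩ := Finset.mem_image.1 h1
        rw [hf.mem_toFinset] at hV
        rw [abs_lt] at h2
        simp only at h2
        have hj0 : (0 : ℝ) ≤ j := by positivity
        refine ⟨V, ⟨hV, p1 V hV x ?_⟩, (Nat.floor_eq_iff (by linarith)).2 ⟨by linarith, by linarith⟩⟩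
        exact pos_of_mul_pos_right (show 0 < ((n : ℝ) + 1) * φ V x by linarith)
          (by positivity)
      · obtain ⟨V, h1, h2⟩ := p2 x
        refine ⟨V, ⟨h1, p1 V h1 x (by rw [h2]; norm_num)⟩, ?_⟩
        simp only [h2, mul_one]
        exact_mod_cast Nat.floor_natCast (R := ℝ) (n + 1)
    have hf' : {V ∈ 𝒱 | x ∈ V}.Finite := hf.subset fun _ h => h.1
    have := (ncard_le_ncard this (hf'.image _)).trans ((ncard_image_le hf').trans (hn x))
    rw [ncard_coe_finset, Finset.card_range] at this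
    omega

lemma main [SecondCountableTopology X] [Nonempty X] (hd : DimLE X n) :
    ∃ W : Fin (n + 1) → ℕ → Set X, (∀ j k, IsOpen (W j k)) ∧
      (∀ j x, ∀ O ∈ 𝓝 x, ∃ k, x ∈ W j k ∧ W j k ⊆ O) ∧
      ∀ x, ∃ j, ∀ k, x ∈ closure (W j k) → x ∈ W j k := by
  classical
  choose st hst using step hd
  obtain ⟨η, hη⟩ : ∃ η : ℝ, η = 1 / (8 * (n + 1)) := ⟨_, rfl⟩
  have hη0 : 0 < η := by rw [hη]; positivity
  have hη1 : (n + 1) * η = 1 / 8 := by rw [hη]; field_simp
  set f : ℕ → C(X, ℝ) := fun k => ⟨fun y => min 1 ((k.unpair.2 + 1) * dist y (denseSeq X k.unpair.1)),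
    by fun_prop⟩ with hf
  let Φ : ℕ → Finset C(X, ℝ) := fun l =>
    Nat.rec {f 0} (fun l P => insert (f (l + 1)) (P ∪ st P (η / 2 ^ (l + 1)))) l
  set Ψ : ℕ → Finset C(X, ℝ) := fun l => st (Φ l) (η / 2 ^ (l + 1)) with hΨ
  have e : ∀ l, Φ (l + 1) = insert (f (l + 1)) (Φ l ∪ Ψ l) := fun l => rfl
  have bf : ∀ k x, 0 ≤ f k x ∧ f k x ≤ 1 := fun k x =>
    ⟨le_min zero_le_one (by positivity), min_le_left _ _⟩
  have bΦ : ∀ l, Bd (Φ l) := by
    intro l
    induction l with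
    | zero => intro h hh; rw [Finset.mem_singleton.1 hh]; exact bf 0
    | succ l ih =>
      intro h hh
      simp only [e, Finset.mem_insert, Finset.mem_union] at hh
      rcases hh with rfl | hh | hh
      exacts [bf _, ih h hh, (hst _ _ ih (by positivity)).1 h hh]
  have mΦ : Monotone Φ := monotone_nat_of_le_succ fun l h hh => by simp [e, hh]
  have fΦ : ∀ l, f l ∈ Φ l := fun l => by
    rcases l with _ | l
    exacts [Finset.mem_singleton_self _, by simp [e]]
  have H := fun l => (hst (Φ l) (η / 2 ^ (l + 1)) (bΦ l) (by positivity)).2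
  let R : Fin (n + 1) → ℕ → X → X → Prop := fun j l z y => ∀ ψ ∈ Ψ l,
    ((n + 1) * ψ z < j + 1 / 2 ∧ (n + 1) * ψ y < j + 1 / 2) ∨
    (j + 1 / 2 < (n + 1) * ψ z ∧ j + 1 / 2 < (n + 1) * ψ y)
  have Ro : ∀ j l z, IsOpen {y | R j l z y} := by
    intro j l z
    simp only [R, ofPred_forall]
    have c : ∀ ψ : C(X, ℝ), Continuous fun y => ((n : ℝ) + 1) * ψ y := fun ψ => by fun_prop
    exact isOpen_biInter_finset fun ψ _ => IsOpen.union (IsOpen.inter isOpen_const
      (isOpen_lt (c ψ) continuous_const)) (IsOpen.inter isOpen_const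
      (isOpen_lt continuous_const (c ψ)))
  have Rs : ∀ j l z y, R j l z y → ∀ h ∈ Φ l, |h y - h z| ≤ η / 2 ^ (l + 1) := by
    intro j l z y hR
    obtain ⟨ψ, h1, h2⟩ := (H l).2.1 z
    have hj : (j : ℝ) + 1 ≤ n + 1 := by exact_mod_cast j.2
    have hj0 : (0 : ℝ) ≤ (j : ℕ) := by positivity
    rcases hR ψ h1 with h | h
    · rw [h2] at h; linarith [h.1]
    · exact (H l).1 ψ h1 y z (pos_of_mul_pos_right
        (show 0 < ((n : ℝ) + 1) * ψ y by linarith [h.2]) (by positivity)) (by rw [h2]; norm_num)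
  let V : Fin (n + 1) → ℕ → ℕ → Set X := fun j k t =>
    Nat.rec {y | f k y < 1 / 3} (fun t A => A ∪ ⋃ z ∈ A, {y | R j (k + t) z y}) t
  have eV : ∀ j k t, V j k (t + 1) = V j k t ∪ ⋃ z ∈ V j k t, {y | R j (k + t) z y} :=
    fun _ _ _ => rfl
  have Vo : ∀ j k t, IsOpen (V j k t) := by
    intro j k t
    induction t with
    | zero => exact isOpen_lt (f k).continuous continuous_const
    | succ t ih => exact ih.union (isOpen_biUnion fun z _ => Ro _ _ z)
  have Vm : ∀ j k, Monotone (V j k) := fun j k =>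
    monotone_nat_of_le_succ fun t => subset_union_left
  have near : ∀ j k t d, ∀ y ∈ V j k (t + d), ∃ z ∈ V j k t, ∀ h ∈ Φ (k + t),
      |h y - h z| ≤ η - η / 2 ^ (k + (t + d)) := by
    intro j k t d
    induction d with
    | zero =>
      intro y hy
      refine ⟨y, hy, fun h _ => ?_⟩
      rw [sub_self, abs_zero, sub_nonneg]
      exact div_le_self hη0.le (one_le_pow₀ (by norm_num))
    | succ d ih =>
      intro y hy
      have e2 : η / 2 ^ (k + (t + d)) = 2 * (η / 2 ^ (k + (t + d) + 1)) := by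
        rw [pow_succ]; field_simp
      have e3 : 0 < η / 2 ^ (k + (t + d) + 1) := by positivity
      rw [← add_assoc t, eV] at hy
      rw [← add_assoc t, ← add_assoc k (t + d)]
      rcases hy with hy | hy
      · obtain ⟨z, h1, h2⟩ := ih y hy
        exact ⟨z, h1, fun h hh => by linarith [h2 h hh]⟩
      · simp only [mem_iUnion] at hy
        obtain ⟨y', h0, hR⟩ := hy
        obtain ⟨z, h1, h2⟩ := ih y' h0
        refine ⟨z, h1, fun h hh => ?_⟩
        linarith [h2 h hh, Rs _ _ _ _ hR h (mΦ (by omega) hh), abs_sub_le (h y) (h y') (h z)]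
  have near' : ∀ j k t, ∀ y ∈ ⋃ t, V j k t, ∃ z ∈ V j k t, ∀ h ∈ Φ (k + t), |h y - h z| ≤ η := by
    intro j k t y hy
    obtain ⟨d, hd⟩ := mem_iUnion.1 hy
    obtain ⟨z, h1, h2⟩ := near j k t d y (Vm j k (by omega) hd)
    exact ⟨z, h1, fun h hh => (h2 h hh).trans (sub_le_self _ (by positivity))⟩
  refine ⟨fun j k => ⋃ t, V j k t, fun j k => isOpen_iUnion (Vo j k), fun j x O hO => ?_,
    fun x => ?_⟩
  · obtain ⟨r, hr, hO⟩ := Metric.mem_nhds_iff.1 hO
    obtain ⟨m, hm⟩ := exists_nat_one_div_lt (half_pos hr)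
    obtain ⟨i, hi⟩ := (denseRange_denseSeq X).exists_dist_lt x
      (show 0 < 1 / (3 * ((m : ℝ) + 1)) by positivity)
    have hm0 : (0 : ℝ) < m + 1 := by positivity
    rw [lt_div_iff₀ (by positivity)] at hi
    rw [div_lt_iff₀ hm0] at hm
    refine ⟨Nat.pair i m, mem_iUnion.2 ⟨0, ?_⟩, fun y hy => hO ?_⟩
    · show f _ x < 1 / 3
      simp only [hf, Nat.unpair_pair, ContinuousMap.coe_mk]
      exact min_lt_of_right_lt (by linarith)
    · obtain ⟨z, h1, h2⟩ := near' j _ 0 y hy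
      have a1 := abs_le.1 (h2 _ (fΦ (Nat.pair i m)))
      have a2 : f (Nat.pair i m) z < 1 / 3 := h1
      have a3 : f (Nat.pair i m) y < 1 := by
        have : (0 : ℝ) ≤ n * η := by positivity
        linarith [a1.2]
      simp only [hf, Nat.unpair_pair, ContinuousMap.coe_mk, min_lt_iff, lt_irrefl, false_or] at a3
      rw [Metric.mem_ball]
      have a4 := dist_triangle_right y x (denseSeq X i)
      apply lt_of_mul_lt_mul_left _ hm0.le
      nlinarith
  · choose J hJ using fun l => (H l).2.2 x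
    obtain ⟨j, hj⟩ := Finite.exists_infinite_fiber J
    refine ⟨j, fun k hk => ?_⟩
    obtain ⟨l, hl, hlk⟩ := (infinite_coe_iff.1 hj).exists_gt k
    obtain ⟨t, rfl⟩ := Nat.exists_eq_add_of_le hlk.le
    have good := hJ (k + t)
    rw [show J (k + t) = j from hl] at good
    have hN : IsOpen {y | ∀ ψ ∈ Ψ (k + t), |ψ y - ψ x| < η} := by
      simp only [ofPred_forall]
      exact isOpen_biInter_finset fun ψ _ => isOpen_lt (by fun_prop) continuous_const
    obtain ⟨y, h1, h2⟩ := mem_closure_iff.1 hk _ hN (fun ψ _ => by simpa using hη0)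
    obtain ⟨z, h3, h4⟩ := near' j k (t + 1) y h2
    have hR : R j (k + t) z x := by
      intro ψ hψ
      have a1 := abs_lt.1 (h1 ψ hψ)
      have a2 := abs_le.1 (h4 ψ (by rw [← add_assoc, e]; simp [hψ]))
      have hn : (0 : ℝ) ≤ n + 1 := by positivity
      have a3 := mul_le_mul_of_nonneg_left (show ψ z - ψ x ≤ 2 * η by linarith) hn
      have a4 := mul_le_mul_of_nonneg_left (show ψ x - ψ z ≤ 2 * η by linarith) hn
      rcases le_abs.1 (good ψ hψ) with h | h
      · right; constructor <;> linarith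
      · left; constructor <;> linarith
    refine mem_iUnion.2 ⟨t + 1, Or.inr ?_⟩
    simp only [mem_iUnion]
    rcases h3 with h3 | h3
    · exact ⟨z, h3, hR⟩
    · simp only [mem_iUnion] at h3
      obtain ⟨z', h5, h6⟩ := h3
      refine ⟨z', h5, fun ψ hψ => ?_⟩
      rcases h6 ψ hψ with a | a <;> rcases hR ψ hψ with b | b
      exacts [Or.inl ⟨a.1, b.2⟩, absurd a.2 b.1.not_gt, absurd a.2 b.1.not_gt, Or.inr ⟨a.1, b.2⟩]

lemma fin (X : Type) [τ : TopologicalSpace X] [T1Space X] [Nonempty X] {n : ℕ} {κ : Type}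
    [Countable κ] (W : Fin (n + 1) → κ → Set X) (h1 : ∀ j k, IsOpen (W j k))
    (h2 : ∀ j x, ∀ O ∈ 𝓝 x, ∃ k, x ∈ W j k ∧ W j k ⊆ O)
    (h3 : ∀ x, ∃ j, ∀ k, x ∈ closure (W j k) → x ∈ W j k) : SnLE X (n + 1) := by
  classical
  let g : Fin (n + 1) → X → κ → Bool := fun j x k => decide (x ∈ W j k)
  have op : ∀ j k, IsOpen[induced (g j) inferInstance] (W j k) := fun j k =>
    ⟨(fun u => u k) ⁻¹' {true}, (isOpen_discrete _).preimage (continuous_apply k), by
      ext x; simp [g]⟩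
  refine ⟨fun j => induced (g j) inferInstance, fun j => ?_, fun U => ⟨fun hU j => ?_, fun hU => ?_⟩⟩
  · have inj : Function.Injective (g j) := by
      intro x y h
      by_contra hne
      obtain ⟨k, a, b⟩ := h2 j x {y}ᶜ (compl_singleton_mem_nhds hne)
      have := congrFun h k
      simp only [g, a, decide_true, true_eq_decide_iff] at this
      exact b this rfl
    letI : TopologicalSpace X := induced (g j) inferInstance
    have em : IsEmbedding (g j) := ⟨⟨rfl⟩, inj⟩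
    haveI := em.secondCountableTopology
    refine ⟨inferInstance, em.metrizableSpace, ?_⟩
    refine smallInductiveDimension_eq 0 ?_ (by simp [hasSmallInductiveDimensionLT_zero_iff])
    refine hasSmallInductiveDimensionLT_one_iff.2 ?_
    refine (isTopologicalBasis_isClopen.isInducing em.isInducing).of_isOpen_of_subset
      (fun _ h => h.isOpen) ?_
    rintro _ ⟨O, hO, rfl⟩
    exact hO.preimage em.continuous
  · letI : TopologicalSpace X := induced (g j) inferInstance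
    rw [isOpen_iff_forall_mem_open]
    intro x hx
    obtain ⟨k, a, b⟩ := h2 j x U (@IsOpen.mem_nhds X τ _ _ hU hx)
    exact ⟨_, b, op j k, a⟩
  · rw [isOpen_iff_mem_nhds]
    intro x hx
    obtain ⟨j, hj⟩ := h3 x
    obtain ⟨O, hO, rfl⟩ := hU j
    refine ContinuousAt.preimage_mem_nhds (continuousAt_pi.2 fun k => ?_) (hO.mem_nhds hx)
    refine continuousAt_const.congr (f := fun _ => g j x k) ?_
    by_cases h : x ∈ W j k
    · filter_upwards [(h1 j k).mem_nhds h] with y hy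
      simp [g, h, hy]
    · filter_upwards [isClosed_closure.isOpen_compl.mem_nhds (mt (hj k) h)] with y hy
      have : y ∉ W j k := fun h' => hy (subset_closure h')
      simp [g, h, this]

lemma eucl (n : ℕ) : SnLE (EuclideanSpace ℝ (Fin n)) (n + 1) := by
  classical
  have c : ∀ i, Continuous fun x : EuclideanSpace ℝ (Fin n) => x i := fun i => by fun_prop
  refine fin _ (κ := (Fin n → ℚ) × (Fin n → ℚ)) (fun j k => {x | ∀ i,
    k.1 i + (j : ℕ) * √2 < x i ∧ x i < k.2 i + (j : ℕ) * √2}) (fun j k => ?_) (fun j x O hO => ?_)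
    fun x => ?_
  · simp only [ofPred_forall]
    exact isOpen_iInter_of_finite fun i => isOpen_Ioo.preimage (c i)
  · rw [(EuclideanSpace.equiv (Fin n) ℝ).toHomeomorph.isInducing.nhds_eq_comap] at hO
    obtain ⟨O', h1, h2⟩ := hO
    obtain ⟨r, hr, h3⟩ := Metric.mem_nhds_iff.1 h1
    choose p hp using fun i => exists_rat_btwn
      (show x i - r - (j : ℕ) * √2 < x i - (j : ℕ) * √2 by linarith)
    choose q hq using fun i => exists_rat_btwn
      (show x i - (j : ℕ) * √2 < x i + r - (j : ℕ) * √2 by linarith)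
    refine ⟨(p, q), fun i => ⟨by linarith [hp i], by linarith [hq i]⟩, fun y hy => h2 (h3 ?_)⟩
    rw [Metric.mem_ball, dist_pi_lt_iff hr]
    intro i
    show |y i - x i| < r
    have := hy i
    rw [abs_lt]; constructor <;> linarith [hp i, hq i]
  · obtain ⟨j, hj⟩ : ∃ j : Fin (n + 1), ∀ i, ∀ r : ℚ, x i ≠ r + (j : ℕ) * √2 := by
      by_contra h
      push Not at h
      choose i r h using h
      obtain ⟨a, b, hab, e⟩ := Fintype.exists_ne_map_eq_of_card_lt i (by simp)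
      have h1 := h a
      rw [e, h b] at h1
      have h2 : ((a : ℕ) - (b : ℕ) : ℚ) ≠ 0 := sub_ne_zero.2 (by
        exact_mod_cast fun h => hab (Fin.ext h))
      refine irrational_sqrt_two ⟨(r b - r a) / ((a : ℕ) - (b : ℕ)), ?_⟩
      have h3 : ((a : ℕ) - (b : ℕ) : ℝ) ≠ 0 := by exact_mod_cast h2
      push_cast
      rw [div_eq_iff h3]; linarith
    refine ⟨j, fun k hk i => ?_⟩
    have := closure_minimal (t := {x : EuclideanSpace ℝ (Fin n) |
      k.1 i + (j : ℕ) * √2 ≤ x i ∧ x i ≤ k.2 i + (j : ℕ) * √2})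
      (fun y hy => ⟨(hy i).1.le, (hy i).2.le⟩) (isClosed_Icc.preimage (c i)) hk
    exact ⟨this.1.lt_of_ne (hj i _).symm, this.2.lt_of_ne (hj i _)⟩

theorem result : (∀ (X : Type) [TopologicalSpace X] [SeparableSpace X] [MetrizableSpace X]
    [Nonempty X] (n : ℕ), DimLE X n → SnLE X (n + 1)) ∧
    ∀ n : ℕ, SnLE (EuclideanSpace ℝ (Fin n)) (n + 1) := by
  refine ⟨fun X _ _ _ _ n hd => ?_, eucl⟩
  letI : MetricSpace X := metrizableSpaceMetric X
  haveI : SecondCountableTopology X := UniformSpace.secondCountable_of_separable X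
  obtain ⟨W, h1, h2, h3⟩ := main hd
  exact fin X W h1 h2 h3

end Pool.Agent.Results.MP_085bfa_gt.Ext
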